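import Pool.Agent.Helper7.KT.St

/-!
# Project KT, module POD: the structure of the edges with poor pairs
-/

set_option autoImplicit false

namespace Pool.Agent.Helper90.KT

open Finset SimpleGraph Filter Topology
open EX Pool.Agent.Helper7.KT

open scoped Classical

noncomputable section

/-- A set with three elements and two given elements. -/
theorem three {n : ℕ} (E : Finset (Fin n)) (hE : E.card = 3) (x y : Fin n) (hx : x ∈ E) (hy : y ∈ E)
    (hxy : x ≠ y) : ∃ z, x ≠ z ∧ y ≠ z ∧ E = {x, y, z} := by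
  have h1 : ((E.erase x).erase y).card = 1 := by
    rw [card_erase_of_mem (mem_erase.2 ⟨hxy.symm, hy⟩), card_erase_of_mem hx, hE]
  obtain ⟨z, hz⟩ := card_eq_one.1 h1
  have hz' : z ∈ (E.erase x).erase y := by
    rw [hz]
    exact mem_singleton_self z
  have hzy : z ≠ y := (mem_erase.1 hz').1
  have hzx : z ≠ x := (mem_erase.1 (mem_erase.1 hz').2).1
  refine ⟨z, hzx.symm, hzy.symm, ?_⟩
  rw [← insert_erase hx, ← insert_erase (mem_erase.2 ⟨hxy.symm, hy⟩ : y ∈ E.erase x), hz]

section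

variable {n : ℕ} {U : Type} [Fintype U] (G : SimpleGraph U) (H : Finset (Finset (Fin n)))
  (δ : ℝ) (D : ℕ)

/-- The first relation. -/
def Q1 (x y z : Fin n) : Prop := T3 H x y z ∧ ¬ hv δ H x z ∧ ¬ hv δ H y z

/-- The second relation. -/
def Q2 (x y z : Fin n) : Prop :=
  T3 H x y z ∧ (Γr 2 G H).Adj z x ∧ (Γr 2 G H).Adj z y ∧ (dg (Γr 2 G H) univ z : ℝ) < δ * n

theorem q1a (hδ : 0 < δ) (x z : Fin n) :
    ((univ.filter fun y => Q1 H δ x y z).card : ℝ) ≤ δ * n := by
  by_cases h : δ * n ≤ cd H x z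
  · have h0 : (univ.filter fun y => Q1 H δ x y z) = ∅ := by
      ext y
      simp only [mem_filter, mem_univ, true_and, notMem_empty, iff_false]
      rintro ⟨h1, h2, _⟩
      exact h2 ⟨h1.2.1, h⟩
    rw [h0]
    simp only [card_empty, Nat.cast_zero]
    positivity
  · refine le_trans ?_ (not_le.1 h).le
    unfold cd
    norm_cast
    apply card_le_card
    intro y hy
    simp only [mem_filter, mem_univ, true_and] at hy ⊢
    exact t3_rot H x y z hy.1

theorem q1b (hδ : 0 < δ) (y z : Fin n) :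
    ((univ.filter fun x => Q1 H δ x y z).card : ℝ) ≤ δ * n := by
  by_cases h : δ * n ≤ cd H y z
  · have h0 : (univ.filter fun x => Q1 H δ x y z) = ∅ := by
      ext x
      simp only [mem_filter, mem_univ, true_and, notMem_empty, iff_false]
      rintro ⟨h1, _, h2⟩
      exact h2 ⟨h1.2.2.1, h⟩
    rw [h0]
    simp only [card_empty, Nat.cast_zero]
    positivity
  · refine le_trans ?_ (not_le.1 h).le
    unfold cd
    norm_cast
    apply card_le_card
    intro x hx
    simp only [mem_filter, mem_univ, true_and] at hx ⊢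
    exact t3_rot H y x z (t3_swap H x y z hx.1)

theorem q2a (hδ : 0 < δ) (x z : Fin n) :
    ((univ.filter fun y => Q2 G H δ x y z).card : ℝ) ≤ δ * n := by
  by_cases h : (dg (Γr 2 G H) univ z : ℝ) < δ * n
  · refine le_trans ?_ h.le
    unfold dg nb
    norm_cast
    apply card_le_card
    intro y hy
    simp only [mem_filter, mem_univ, true_and] at hy ⊢
    exact hy.2.2.1
  · have h0 : (univ.filter fun y => Q2 G H δ x y z) = ∅ := by
      ext y
      simp only [mem_filter, mem_univ, true_and, notMem_empty, iff_false]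
      rintro ⟨_, _, _, h2⟩
      exact h h2
    rw [h0]
    simp only [card_empty, Nat.cast_zero]
    positivity

theorem q2b (hδ : 0 < δ) (y z : Fin n) :
    ((univ.filter fun x => Q2 G H δ x y z).card : ℝ) ≤ δ * n := by
  by_cases h : (dg (Γr 2 G H) univ z : ℝ) < δ * n
  · refine le_trans ?_ h.le
    unfold dg nb
    norm_cast
    apply card_le_card
    intro x hx
    simp only [mem_filter, mem_univ, true_and] at hx ⊢
    exact hx.2.1
  · have h0 : (univ.filter fun x => Q2 G H δ x y z) = ∅ := by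
      ext x
      simp only [mem_filter, mem_univ, true_and, notMem_empty, iff_false]
      rintro ⟨_, _, _, h2⟩
      exact h h2
    rw [h0]
    simp only [card_empty, Nat.cast_zero]
    positivity

/-- The case of two poor pairs. -/
theorem aux (x y z : Fin n) (E : Finset (Fin n)) (hE : E = {x, y, z}) (h : T3 H x y z)
    (hxy : ¬ (Γr 2 G H).Adj x y) (hzy : ¬ (Γr 2 G H).Adj z y)
    (hB : ¬ tB (Γr 2 G H) H (Pt δ D H) E) (hn : ∀ u v : Fin n, u ≠ v →
      ¬ (Γr 2 G H).Adj u v → ¬ hv δ H u v) :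
    (∃ x' y' z', T3 H x' y' z' ∧ E = {x', y', z'} ∧
      ¬ (Γr 2 G H).Adj x' y' ∧ Q1 H δ x' y' z') ∨
    (∃ x' y' z', T3 H x' y' z' ∧ E = {x', y', z'} ∧
      ¬ (Γr 2 G H).Adj x' y' ∧ D < hd δ H x') := by
  have hyz : ¬ hv δ H y z := hn y z h.2.2.1 (fun h1 => hzy h1.symm)
  by_cases h1 : hv δ H x z
  · right
    by_cases h2 : D < hd δ H x
    · exact ⟨x, y, z, h, hE, hxy, h2⟩
    by_cases h3 : D < hd δ H z
    · refine ⟨z, y, x, ?_, ?_, hzy, h3⟩
      · exact t3_swap H y z x (t3_rot H y x z (t3_swap H x y z h))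
      · rw [hE]
        ext w
        simp only [mem_insert, mem_singleton]
        tauto
    · exfalso
      apply hB
      refine ⟨x, z, y, t3_rot H x y z h, ?_, ?_, ?_, ?_⟩
      · rw [hE]
        ext w
        simp only [mem_insert, mem_singleton]
        tauto
      · exact ⟨hv_symm δ H x z h1, not_lt.1 h3, not_lt.1 h2⟩
      · exact fun h4 => hxy h4.symm
      · exact fun h4 => hzy h4.symm
  · left
    exact ⟨x, y, z, h, hE, hxy, h, h1, hyz⟩

end

/-- The structure of the edges with poor pairs. -/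
theorem hPOD (hCDR : StCDR) (hPOA : StPOA) (hPOC : StPOC) : StPOD := by
  intro U _ G t hBp ht ε hε
  obtain ⟨δ, hδ, hA⟩ := hPOA U G 3 t hBp (ε / 3) (by positivity)
  obtain ⟨D, hC⟩ := hPOC U G t hBp ht δ hδ (ε / 3) (by positivity)
  refine ⟨δ, hδ, D, ?_⟩
  have hlim : ∀ᶠ n : ℕ in atTop, (sN 2 G : ℝ) ≤ δ * n := by
    have h1 : Tendsto (fun n : ℕ => δ * (n : ℝ)) atTop atTop :=
      tendsto_natCast_atTop_atTop.const_mul_atTop hδ
    exact h1.eventually_ge_atTop _
  filter_upwards [hA δ hδ le_rfl, hC, hlim] with n hA' hC' hN H hH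
  have hc : ∀ E ∈ H, E.card = 3 := hH.1
  have hn : ∀ u v : Fin n, u ≠ v → ¬ (Γr 2 G H).Adj u v → ¬ hv δ H u v := by
    intro u v huv h1 h2
    apply h1
    refine ⟨huv, (hCDR (Fin n) H hc (sN 2 G) u v huv).2 ?_⟩
    have h3 : (sN 2 G : ℝ) ≤ cd H u v := hN.trans h2.2
    exact_mod_cast h3
  have e1 := hA' H hH (Q1 H δ) (q1a H δ hδ) (q1b H δ hδ)
  have e2 := hA' H hH (Q2 G H δ) (q2a G H δ hδ) (q2b G H δ hδ)
  have e3 := hC' H hH
  set S1 := H.filter fun E => ∃ x y z, T3 H x y z ∧ E = {x, y, z} ∧ ¬ (Γr 2 G H).Adj x y ∧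
    Q1 H δ x y z with hS1
  set S2 := H.filter fun E => ∃ x y z, T3 H x y z ∧ E = {x, y, z} ∧ ¬ (Γr 2 G H).Adj x y ∧
    Q2 G H δ x y z with hS2
  set S3 := H.filter fun E => ∃ x y z, T3 H x y z ∧ E = {x, y, z} ∧ ¬ (Γr 2 G H).Adj x y ∧
    D < hd δ H x with hS3
  have hsub : (H.filter fun E => ¬ Cq (Γr 2 G H) E ∧ ¬ tA (Γr 2 G H) H (Ct (Γr 2 G H) δ) E ∧
      ¬ tB (Γr 2 G H) H (Pt δ D H) E) ⊆ S1 ∪ S2 ∪ S3 := by
    intro E hE
    obtain ⟨hEH, hq, hta, htb⟩ := mem_filter.1 hE
    unfold Cq at hq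
    push Not at hq
    obtain ⟨x, hx, y, hy, hxy, hadj⟩ := hq
    obtain ⟨z, hxz, hyz, hE3⟩ := three E (hc E hEH) x y hx hy hxy
    have hT : T3 H x y z := by
      refine ⟨hxy, hxz, hyz, ?_⟩
      rw [hE3] at hEH
      have e : ∀ S1 S2 : Finset (Fin n), S1 = S2 → S2 ∈ H → S1 ∈ H := fun _ _ h h' => h ▸ h'
      refine e _ _ ?_ hEH
      ext y
      simp only [mem_insert, mem_singleton]
    by_cases h1 : (Γr 2 G H).Adj z x ∧ (Γr 2 G H).Adj z y
    · by_cases h2 : δ * n ≤ dg (Γr 2 G H) univ z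
      · exfalso
        apply hta
        refine ⟨z, mem_filter.2 ⟨mem_univ z, h2⟩, x, y, ?_, ?_, h1.1, h1.2, hadj⟩
        · exact t3_swap H x z y (t3_rot H x y z hT)
        · rw [hE3]
          ext w
          simp only [mem_insert, mem_singleton]
          tauto
      · apply mem_union_left
        apply mem_union_right
        rw [hS2, mem_filter]
        exact ⟨hEH, x, y, z, hT, hE3, hadj, hT, h1.1, h1.2, not_le.1 h2⟩
    · have key : (∃ x' y' z', T3 H x' y' z' ∧ E = {x', y', z'} ∧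
          ¬ (Γr 2 G H).Adj x' y' ∧ Q1 H δ x' y' z') ∨
          (∃ x' y' z', T3 H x' y' z' ∧ E = {x', y', z'} ∧
          ¬ (Γr 2 G H).Adj x' y' ∧ D < hd δ H x') := by
        by_cases h2 : (Γr 2 G H).Adj z y
        · have h3 : ¬ (Γr 2 G H).Adj z x := fun h3 => h1 ⟨h3, h2⟩
          have hset : E = {y, x, z} := by
            rw [hE3]
            exact insert_comm x y {z}
          exact aux G H δ D y x z E hset (t3_swap H x y z hT) (fun h4 => hadj h4.symm) h3
            htb hn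
        · exact aux G H δ D x y z E hE3 hT hadj h2 htb hn
      rcases key with h | h
      · apply mem_union_left
        apply mem_union_left
        rw [hS1, mem_filter]
        exact ⟨hEH, h⟩
      · apply mem_union_right
        rw [hS3, mem_filter]
        exact ⟨hEH, h⟩
  have hcard : ((H.filter fun E => ¬ Cq (Γr 2 G H) E ∧
      ¬ tA (Γr 2 G H) H (Ct (Γr 2 G H) δ) E ∧
      ¬ tB (Γr 2 G H) H (Pt δ D H) E).card : ℝ) ≤ S1.card + S2.card + S3.card := by
    have h1 := card_le_card hsub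
    have h2 := card_union_le (S1 ∪ S2) S3
    have h3 := card_union_le S1 S2
    have h4 : (H.filter fun E => ¬ Cq (Γr 2 G H) E ∧
      ¬ tA (Γr 2 G H) H (Ct (Γr 2 G H) δ) E ∧
      ¬ tB (Γr 2 G H) H (Pt δ D H) E).card ≤ S1.card + S2.card + S3.card := by omega
    exact_mod_cast h4
  have h5 : ε * (n : ℝ) ^ 2 = ε / 3 * (n : ℝ) ^ 2 + ε / 3 * (n : ℝ) ^ 2 +
      ε / 3 * (n : ℝ) ^ 2 := by ring
  rw [h5]
  exact hcard.trans (add_le_add (add_le_add e1 e2) e3)

end

end Pool.Agent.Helper90.KT
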